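import Mathlib
set_option autoImplicit false
namespace Chr827
open Finset

section cube
variable {ι : Type} [Fintype ι] [DecidableEq ι]

/-- mean over the cube -/
noncomputable def m (f : (ι → Bool) → ℝ) : ℝ := (∑ x, f x) / (2:ℝ) ^ (Fintype.card ι)

/-- `z` on `S`, `x` off `S` -/
def pw (S : Finset ι) (z x : ι → Bool) : ι → Bool := fun i => if i ∈ S then z i else x i

/-- average over the coordinates in `S` -/
noncomputable def A (S : Finset ι) (f : (ι → Bool) → ℝ) : (ι → Bool) → ℝ :=
  fun x => m (fun z => f (pw S z x))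

/-- `f` depends only on the coordinates in `S` -/
def Dep (f : (ι → Bool) → ℝ) (S : Finset ι) : Prop := ∀ x y, (∀ i ∈ S, x i = y i) → f x = f y

lemma m_mono {f g : (ι → Bool) → ℝ} (h : ∀ x, f x ≤ g x) : m f ≤ m g := by
  unfold m
  exact div_le_div_of_nonneg_right (Finset.sum_le_sum fun x _ => h x) (by positivity)

lemma m_nonneg {f : (ι → Bool) → ℝ} (h : ∀ x, 0 ≤ f x) : 0 ≤ m f := by
  unfold m
  exact div_nonneg (Finset.sum_nonneg fun x _ => h x) (by positivity)

lemma m_const (c : ℝ) : m (fun _ : ι → Bool => c) = c := by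
  unfold m
  rw [Finset.sum_const, Finset.card_univ, Fintype.card_fun, Fintype.card_bool, nsmul_eq_mul]
  push_cast
  field_simp

lemma m_mul_left (c : ℝ) (f : (ι → Bool) → ℝ) : m (fun x => c * f x) = c * m f := by
  unfold m
  rw [← Finset.mul_sum, mul_div_assoc]

lemma m_add (f g : (ι → Bool) → ℝ) : m (fun x => f x + g x) = m f + m g := by
  unfold m
  rw [Finset.sum_add_distrib, add_div]

/-- L0 -/
lemma m_m_pw (T : Finset ι) (φ : (ι → Bool) → ℝ) : m (fun z => m (fun w => φ (pw T w z))) = m φ := by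
  have key : ∑ z, ∑ w, φ (pw T w z) = ∑ z : ι → Bool, ∑ w : ι → Bool, φ z := by
    rw [← Fintype.sum_prod_type', ← Fintype.sum_prod_type']
    let e : ((ι → Bool) × (ι → Bool)) ≃ ((ι → Bool) × (ι → Bool)) :=
      { toFun := fun p => (pw T p.2 p.1, pw T p.1 p.2)
        invFun := fun p => (pw T p.2 p.1, pw T p.1 p.2)
        left_inv := by
          rintro ⟨z, w⟩
          ext i <;> simp only [pw] <;> split_ifs <;> rfl
        right_inv := by
          rintro ⟨z, w⟩
          ext i <;> simp only [pw] <;> split_ifs <;> rfl }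
    exact Fintype.sum_equiv e _ _ (fun p => rfl)
  unfold m
  rw [← Finset.sum_div, key]
  simp only [Finset.sum_const, Finset.card_univ, Fintype.card_fun, Fintype.card_bool, nsmul_eq_mul]
  rw [← Finset.mul_sum]
  push_cast
  field_simp

lemma A_A (S T : Finset ι) (f : (ι → Bool) → ℝ) : A S (A T f) = A (S ∪ T) f := by
  funext x
  unfold A
  have h := m_m_pw T (fun u => f (pw (S ∪ T) u x))
  rw [← h]
  congr 1
  funext z
  congr 1
  funext w
  congr 1
  funext i
  simp only [pw, Finset.mem_union]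
  by_cases hS : i ∈ S <;> by_cases hT : i ∈ T <;> simp [hS, hT]

lemma A_empty (f : (ι → Bool) → ℝ) : A ∅ f = f := by
  funext x
  unfold A
  have : (fun z : ι → Bool => f (pw ∅ z x)) = fun _ => f x := by
    funext z; congr 1
  rw [this, m_const]

lemma A_univ (f : (ι → Bool) → ℝ) (x : ι → Bool) : A univ f x = m f := by
  unfold A
  congr 1
  funext z
  congr 1
  funext i
  simp [pw]

lemma m_A (S : Finset ι) (f : (ι → Bool) → ℝ) : m (A S f) = m f := by
  have h := A_A univ S f
  have x : ι → Bool := fun _ => true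
  have h2 := congrFun h x
  have h3 : (univ : Finset ι) ∪ S = univ := by ext; simp
  rw [h3, A_univ, A_univ] at h2
  exact h2

lemma A_nonneg {S : Finset ι} {f : (ι → Bool) → ℝ} (h : ∀ x, 0 ≤ f x) (x) : 0 ≤ A S f x :=
  m_nonneg fun _ => h _

lemma A_mono {S : Finset ι} {f g : (ι → Bool) → ℝ} (h : ∀ x, f x ≤ g x) (x) : A S f x ≤ A S g x :=
  m_mono fun _ => h _

lemma A_single (i : ι) (f : (ι → Bool) → ℝ) (x : ι → Bool) :
    A {i} f x = (f (Function.update x i false) + f (Function.update x i true)) / 2 := by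
  have hpw : ∀ z : ι → Bool, pw {i} z x = Function.update x i (z i) := by
    intro z
    funext j
    by_cases h : j = i
    · subst h; simp [pw]
    · simp [pw, h, Function.update_of_ne h]
  have hflip : m (fun z : ι → Bool => f (Function.update x i (z i))) =
      m (fun z : ι → Bool => f (Function.update x i (!(z i)))) := by
    unfold m
    congr 1
    let e : (ι → Bool) ≃ (ι → Bool) :=
      { toFun := fun z j => !(z j)
        invFun := fun z j => !(z j)
        left_inv := fun z => by funext j; simp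
        right_inv := fun z => by funext j; simp }
    exact (Fintype.sum_equiv e (fun z => f (Function.update x i (!(z i))))
      (fun z => f (Function.update x i (z i))) (fun z => rfl)).symm
  have h2 : m (fun z : ι → Bool => f (Function.update x i (z i))) +
      m (fun z : ι → Bool => f (Function.update x i (!(z i)))) =
      f (Function.update x i false) + f (Function.update x i true) := by
    rw [← m_add]
    have : (fun z : ι → Bool => f (Function.update x i (z i)) + f (Function.update x i (!(z i)))) =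
        fun _ => f (Function.update x i false) + f (Function.update x i true) := by
      funext z
      cases z i
      · simp
      · simp [add_comm]
    rw [this, m_const]
  have h3 : A {i} f x = m (fun z : ι → Bool => f (Function.update x i (z i))) := by
    unfold A
    congr 1
    funext z
    rw [hpw]
  rw [h3]
  linarith

lemma A_dep {S T : Finset ι} {f : (ι → Bool) → ℝ} (h : Dep f S) : Dep (A T f) S := by
  intro x y hxy
  unfold A
  congr 1
  funext z
  apply h
  intro i hi
  simp only [pw]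
  split_ifs
  · rfl
  · exact hxy i hi

lemma A_single_of_dep {S : Finset ι} {f : (ι → Bool) → ℝ} (h : Dep f S) {i : ι} (hi : i ∉ S) :
    A {i} f = f := by
  funext x
  rw [A_single]
  have h1 : ∀ b, f (Function.update x i b) = f x := by
    intro b
    apply h
    intro j hj
    rw [Function.update_of_ne]
    rintro rfl; exact hi hj
  rw [h1, h1]; ring

/-- two-point Hölder -/
lemma holder2 {J : Type} (s : Finset J) (k : ℕ) (hk : 1 ≤ k) (hs : s.card = k) (a b : J → ℝ)
    (ha : ∀ j ∈ s, 0 ≤ a j) (hb : ∀ j ∈ s, 0 ≤ b j) :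
    ((∏ j ∈ s, (a j) ^ (1 / (k:ℝ))) + ∏ j ∈ s, (b j) ^ (1 / (k:ℝ))) / 2 ≤
      ∏ j ∈ s, ((a j + b j) / 2) ^ (1 / (k:ℝ)) := by
  have hk0 : (0:ℝ) < k := by exact_mod_cast hk
  have hkne : (1 / (k:ℝ)) ≠ 0 := by positivity
  by_cases h0 : ∃ j ∈ s, a j + b j = 0
  · obtain ⟨j, hj, hjz⟩ := h0
    have haj : a j = 0 := by have := ha j hj; have := hb j hj; linarith
    have hbj : b j = 0 := by have := ha j hj; have := hb j hj; linarith
    rw [Finset.prod_eq_zero hj (by rw [haj, Real.zero_rpow hkne]),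
      Finset.prod_eq_zero hj (by rw [hbj, Real.zero_rpow hkne]),
      Finset.prod_eq_zero hj (by rw [haj, hbj]; simp only [add_zero, zero_div]; exact Real.zero_rpow hkne)]
    norm_num
  · have hpos : ∀ j ∈ s, 0 < (a j + b j) / 2 := by
      intro j hj
      have h1 := ha j hj
      have h2 := hb j hj
      rcases lt_or_eq_of_le (add_nonneg h1 h2) with h | h
      · linarith
      · exact absurd ⟨j, hj, h.symm⟩ h0
    have key : ∀ u : J → ℝ, (∀ j ∈ s, 0 ≤ u j) →
        ∏ j ∈ s, (u j) ^ (1 / (k:ℝ)) ≤ (∑ j ∈ s, (1 / (k:ℝ)) * (u j / ((a j + b j) / 2))) *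
          ∏ j ∈ s, ((a j + b j) / 2) ^ (1 / (k:ℝ)) := by
      intro u hu
      have hsplit : ∏ j ∈ s, (u j) ^ (1 / (k:ℝ)) =
          (∏ j ∈ s, (u j / ((a j + b j) / 2)) ^ (1 / (k:ℝ))) *
            ∏ j ∈ s, ((a j + b j) / 2) ^ (1 / (k:ℝ)) := by
        rw [← Finset.prod_mul_distrib]
        apply Finset.prod_congr rfl
        intro j hj
        have hc := hpos j hj
        rw [← Real.mul_rpow (div_nonneg (hu j hj) hc.le) hc.le, div_mul_cancel₀ _ hc.ne']
      rw [hsplit]
      apply mul_le_mul_of_nonneg_right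
      · apply Real.geom_mean_le_arith_mean_weighted s (fun _ => 1 / (k:ℝ)) _
        · intro i _; positivity
        · rw [Finset.sum_const, hs, nsmul_eq_mul]; field_simp
        · intro j hj; exact div_nonneg (hu j hj) (hpos j hj).le
      · exact Finset.prod_nonneg fun j hj => Real.rpow_nonneg (hpos j hj).le _
    have h1 := key a ha
    have h2 := key b hb
    have hsum : (∑ j ∈ s, (1 / (k:ℝ)) * (a j / ((a j + b j) / 2))) +
        (∑ j ∈ s, (1 / (k:ℝ)) * (b j / ((a j + b j) / 2))) = 2 := by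
      rw [← Finset.sum_add_distrib]
      have : ∀ j ∈ s, (1 / (k:ℝ)) * (a j / ((a j + b j) / 2)) + (1 / (k:ℝ)) * (b j / ((a j + b j) / 2)) = 2 / (k:ℝ) := by
        intro j hj
        have hc := (hpos j hj).ne'
        have hc' : a j + b j ≠ 0 := by intro h; apply hc; rw [h]; norm_num
        field_simp
      rw [Finset.sum_congr rfl this, Finset.sum_const, hs, nsmul_eq_mul]
      field_simp
    have hP : (∑ j ∈ s, (1 / (k:ℝ)) * (a j / ((a j + b j) / 2))) *
          ∏ j ∈ s, ((a j + b j) / 2) ^ (1 / (k:ℝ)) + (∑ j ∈ s, (1 / (k:ℝ)) * (b j / ((a j + b j) / 2))) *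
          ∏ j ∈ s, ((a j + b j) / 2) ^ (1 / (k:ℝ)) = 2 * ∏ j ∈ s, ((a j + b j) / 2) ^ (1 / (k:ℝ)) := by
      rw [← add_mul, hsum]
    linarith

/-- Finner / Shearer -/
theorem finner {J : Type} [Fintype J] [DecidableEq J] (S : J → Finset ι) (g : J → (ι → Bool) → ℝ)
    (hg : ∀ j x, 0 ≤ g j x) (hd : ∀ j, Dep (g j) (S j)) (k : ℕ) (hk : 1 ≤ k)
    (hc : ∀ i, (univ.filter fun j => i ∈ S j).card = k) :
    m (fun x => ∏ j, (g j x) ^ (1 / (k:ℝ))) ≤ ∏ j, (m (g j)) ^ (1 / (k:ℝ)) := by
  have key : ∀ T : Finset ι, ∀ x, A T (fun x => ∏ j, (g j x) ^ (1 / (k:ℝ))) x ≤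
      ∏ j, (A T (g j) x) ^ (1 / (k:ℝ)) := by
    intro T
    induction T using Finset.induction_on with
    | empty => intro x; simp only [A_empty]; exact le_rfl
    | insert i T hi ih =>
      intro x
      rw [Finset.insert_eq, ← A_A]
      refine (A_mono ih x).trans ?_
      rw [A_single]
      have hsplit : ∀ y : ι → Bool, ∏ j, (A T (g j) y) ^ (1 / (k:ℝ)) =
          (∏ j ∈ univ.filter (fun j => i ∈ S j), (A T (g j) y) ^ (1 / (k:ℝ))) *
          ∏ j ∈ univ.filter (fun j => ¬ i ∈ S j), (A T (g j) y) ^ (1 / (k:ℝ)) := by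
        intro y
        exact (Finset.prod_filter_mul_prod_filter_not univ (fun j => i ∈ S j) _).symm
      have hconst : ∀ b, ∏ j ∈ univ.filter (fun j => ¬ i ∈ S j),
          (A T (g j) (Function.update x i b)) ^ (1 / (k:ℝ)) =
          ∏ j ∈ univ.filter (fun j => ¬ i ∈ S j), (A T (g j) x) ^ (1 / (k:ℝ)) := by
        intro b
        apply Finset.prod_congr rfl
        intro j hj
        rw [Finset.mem_filter] at hj
        congr 1
        apply A_dep (hd j)
        intro l hl
        rw [Function.update_of_ne]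
        rintro rfl; exact hj.2 hl
      rw [hsplit, hsplit, hconst, hconst, ← add_mul, mul_div_right_comm]
      have hR : ∏ j, (A ({i} ∪ T) (g j) x) ^ (1 / (k:ℝ)) =
          (∏ j ∈ univ.filter (fun j => i ∈ S j),
            ((A T (g j) (Function.update x i false) + A T (g j) (Function.update x i true)) / 2)
              ^ (1 / (k:ℝ))) *
          ∏ j ∈ univ.filter (fun j => ¬ i ∈ S j), (A T (g j) x) ^ (1 / (k:ℝ)) := by
        rw [← Finset.prod_filter_mul_prod_filter_not univ (fun j => i ∈ S j)]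
        congr 1
        · apply Finset.prod_congr rfl
          intro j _
          rw [← A_A, A_single]
        · apply Finset.prod_congr rfl
          intro j hj
          rw [Finset.mem_filter] at hj
          rw [← A_A, A_single_of_dep (A_dep (hd j)) hj.2]
      rw [hR]
      apply mul_le_mul_of_nonneg_right
      · exact holder2 _ k hk (hc i) _ _ (fun j _ => A_nonneg (hg j) _) (fun j _ => A_nonneg (hg j) _)
      · exact Finset.prod_nonneg fun j _ => Real.rpow_nonneg (A_nonneg (hg j) _) _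
  have h := key univ (fun _ => true)
  rw [A_univ] at h
  refine h.trans (le_of_eq ?_)
  apply Finset.prod_congr rfl
  intro j _
  rw [A_univ]

theorem ws_num (n : ℕ) : ((n + 1 : ℕ) : ℝ) ^ (3/4 : ℝ) = (((n + 1 : ℕ) : ℝ) ^ (1/4 : ℝ)) ^ 3 ∧
    1 ≤ 4 * ((((n + 1 : ℕ) : ℝ) ^ (1/4 : ℝ)) ^ 3) * (((n + 1 : ℕ) : ℝ) ^ (1/4 : ℝ) - ((n : ℕ) : ℝ) ^ (1/4 : ℝ)) := by
  have h0 : (0:ℝ) ≤ ((n + 1 : ℕ) : ℝ) := by positivity
  have h1 : (0:ℝ) ≤ ((n : ℕ) : ℝ) := by positivity
  constructor
  · rw [← Real.rpow_natCast, ← Real.rpow_mul h0]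
    norm_num
  · set a := ((n + 1 : ℕ) : ℝ) ^ (1/4 : ℝ) with ha
    set b := ((n : ℕ) : ℝ) ^ (1/4 : ℝ) with hb
    have ha4 : a ^ 4 = (n : ℝ) + 1 := by
      rw [ha, ← Real.rpow_natCast, ← Real.rpow_mul h0]
      norm_num
    have hb4 : b ^ 4 = (n : ℝ) := by
      rw [hb, ← Real.rpow_natCast, ← Real.rpow_mul h1]
      norm_num
    have hb0 : 0 ≤ b := Real.rpow_nonneg h1 _
    have hab : b ≤ a := Real.rpow_le_rpow h1 (by push_cast; linarith) (by norm_num)
    have ha0 : 0 ≤ a := hb0.trans hab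
    have e1 : (a - b) * (a ^ 3 + a ^ 2 * b + a * b ^ 2 + b ^ 3) = 1 := by
      linear_combination ha4 - hb4
    have e2 : a ^ 3 + a ^ 2 * b + a * b ^ 2 + b ^ 3 ≤ 4 * a ^ 3 := by
      have f1 : a ^ 2 * b ≤ a ^ 3 := by nlinarith [mul_nonneg (sq_nonneg a) (sub_nonneg.2 hab)]
      have f2 : a * b ^ 2 ≤ a ^ 3 := by
        have : b ^ 2 ≤ a ^ 2 := by nlinarith
        nlinarith [mul_le_mul_of_nonneg_left this ha0]
      have f3 : b ^ 3 ≤ a ^ 3 := pow_le_pow_left₀ hb0 hab 3
      linarith
    have e3 : (a - b) * (a ^ 3 + a ^ 2 * b + a * b ^ 2 + b ^ 3) ≤ (a - b) * (4 * a ^ 3) :=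
      mul_le_mul_of_nonneg_left e2 (sub_nonneg.2 hab)
    rw [e1] at e3
    linarith

theorem ws_aux {X : Type} [DecidableEq X] (g : X → ℝ) (M : ℝ) (hM : 0 ≤ M) (n : ℕ) :
    ∀ (B : Finset X), B.card = n → (∀ x ∈ B, 0 ≤ g x) →
    (∀ x ∈ B, g x * ((B.filter fun y => g x ≤ g y).card : ℝ) ^ (3/4 : ℝ) ≤ M) →
    ∑ x ∈ B, g x ≤ 4 * M * (n : ℝ) ^ (1/4 : ℝ) := by
  induction n with
  | zero =>
    intro B hB _ _
    rw [card_eq_zero] at hB
    subst hB
    simp
  | succ n ih =>
    intro B hB hg h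
    have hne : B.Nonempty := by
      rw [← card_pos]
      omega
    obtain ⟨x0, hx0, hmin⟩ := exists_min_image B g hne
    have hf : (B.filter fun y => g x0 ≤ g y) = B := filter_true_of_mem hmin
    have h1 := h x0 hx0
    rw [hf, hB] at h1
    obtain ⟨n1, n2⟩ := ws_num n
    rw [n1] at h1
    set a := ((n + 1 : ℕ) : ℝ) ^ (1/4 : ℝ) with ha
    set b := ((n : ℕ) : ℝ) ^ (1/4 : ℝ) with hb
    have ha0 : 0 < a := Real.rpow_pos_of_pos (by positivity) _
    have hih := ih (B.erase x0) (by rw [card_erase_of_mem hx0, hB]; rfl)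
      (fun x hx => hg x (mem_of_mem_erase hx)) (by
        intro x hx
        have h2 := h x (mem_of_mem_erase hx)
        refine le_trans ?_ h2
        apply mul_le_mul_of_nonneg_left _ (hg x (mem_of_mem_erase hx))
        apply Real.rpow_le_rpow (by positivity) _ (by norm_num)
        exact_mod_cast card_le_card (filter_subset_filter _ (erase_subset _ _)))
    rw [← add_sum_erase B g hx0]
    have h3 : g x0 ≤ 4 * M * (a - b) := by
      have ha3 : 0 < a ^ 3 := by positivity
      have h4 : g x0 * a ^ 3 ≤ (4 * M * (a - b)) * a ^ 3 := by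
        calc g x0 * a ^ 3 ≤ M * 1 := by linarith
          _ ≤ M * (4 * a ^ 3 * (a - b)) := mul_le_mul_of_nonneg_left n2 hM
          _ = (4 * M * (a - b)) * a ^ 3 := by ring
      exact le_of_mul_le_mul_right h4 ha3
    calc g x0 + ∑ x ∈ B.erase x0, g x ≤ 4 * M * (a - b) + 4 * M * b := add_le_add h3 hih
      _ = 4 * M * a := by ring

/-- weak-type summation -/
lemma weak_sum {X : Type} [DecidableEq X] (B : Finset X) (g : X → ℝ) (hg : ∀ x ∈ B, 0 ≤ g x) (M : ℝ)
    (hM : 0 ≤ M) (h : ∀ x ∈ B, g x * ((B.filter fun y => g x ≤ g y).card : ℝ) ^ (3/4 : ℝ) ≤ M) :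
    ∑ x ∈ B, g x ≤ 4 * M * (B.card : ℝ) ^ (1/4 : ℝ) := by
  exact ws_aux g M hM B.card B rfl hg h

/-- two functions with all products of means bounded -/
lemma m_mul_m_le {h h' : (ι → Bool) → ℝ} {C : ℝ} (hC : ∀ x y, h x * h' y ≤ C) : m h * m h' ≤ C := by
  have h1 : ∀ x, h x * m h' ≤ C := by
    intro x
    rw [← m_mul_left]
    calc m (fun y => h x * h' y) ≤ m (fun _ => C) := m_mono (fun y => hC x y)
      _ = C := m_const C
  have h2 : m h * m h' = m (fun x => m h' * h x) := by rw [m_mul_left]; ring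
  rw [h2]
  calc m (fun x => m h' * h x) ≤ m (fun _ => C) := m_mono (fun x => by rw [mul_comm]; exact h1 x)
    _ = C := m_const C

end cube

/-! ### graphs -/
section graph

/-- coordinates: pairs `a < b` -/
abbrev Ed (n : ℕ) := {p : Fin n × Fin n // p.1 < p.2}

/-- `x` is colourable with `r` colours -/
def Col {n : ℕ} (x : Ed n → Bool) (r : ℕ) : Prop :=
  ∃ f : Fin n → Fin r, ∀ p : Ed n, x p = true → f p.1.1 ≠ f p.1.2

lemma Col.mono {n : ℕ} {x : Ed n → Bool} {r r' : ℕ} (h : Col x r) (hr : r ≤ r') : Col x r' := by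
  obtain ⟨f, hf⟩ := h
  refine ⟨fun v => Fin.castLE hr (f v), fun p hp he => hf p hp ?_⟩
  exact Fin.castLE_injective hr he

lemma Col.sub {n : ℕ} {x y : Ed n → Bool} {r : ℕ} (h : Col y r) (hxy : ∀ p, x p = true → y p = true) :
    Col x r := by
  obtain ⟨f, hf⟩ := h
  exact ⟨f, fun p hp => hf p (hxy p hp)⟩

lemma col_self {n : ℕ} (x : Ed n → Bool) : Col x (n + 1) := by
  refine ⟨fun v => Fin.castLE (Nat.le_succ n) v, fun p _ he => ?_⟩
  have := Fin.castLE_injective (Nat.le_succ n) he
  exact absurd this (ne_of_lt p.2)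

/-- chromatic number minus one (for `n ≥ 1`) -/
noncomputable def rho {n : ℕ} (x : Ed n → Bool) : ℕ := sInf {r | Col x (r + 1)}

lemma rho_spec {n : ℕ} (x : Ed n → Bool) : Col x (rho x + 1) :=
  Nat.sInf_mem (s := {r | Col x (r + 1)}) ⟨n, col_self x⟩

lemma rho_le {n : ℕ} {x : Ed n → Bool} {r : ℕ} (h : Col x (r + 1)) : rho x ≤ r := Nat.sInf_le h

lemma rho_mono {n : ℕ} {x y : Ed n → Bool} (hxy : ∀ p, x p = true → y p = true) : rho x ≤ rho y :=
  rho_le ((rho_spec y).sub hxy)

/-- intersection -/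
def inter {n : ℕ} (x y : Ed n → Bool) : Ed n → Bool := fun p => x p && y p

/-- restriction to a set of coordinates -/
def res {n : ℕ} (S : Finset (Ed n)) (x : Ed n → Bool) : Ed n → Bool := fun p => if p ∈ S then x p else false

/-- pairs inside colour class `i` -/
def Sc {n K : ℕ} (c : Fin n → Fin K) (i : Fin K) : Finset (Ed n) :=
  univ.filter fun p => c p.1.1 = i ∧ c p.1.2 = i

/-- monochromatic pairs -/
def U {n K : ℕ} (c : Fin n → Fin K) : Finset (Ed n) := univ.filter fun p => c p.1.1 = c p.1.2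

lemma mem_Sc {n K : ℕ} {c : Fin n → Fin K} {i : Fin K} {p : Ed n} :
    p ∈ Sc c i ↔ c p.1.1 = i ∧ c p.1.2 = i := by simp [Sc]

lemma mem_U {n K : ℕ} {c : Fin n → Fin K} {p : Ed n} : p ∈ U c ↔ c p.1.1 = c p.1.2 := by simp [U]

lemma Sc_sub_U {n K : ℕ} {c : Fin n → Fin K} {i : Fin K} : Sc c i ⊆ U c := by
  intro p hp
  rw [mem_Sc] at hp; rw [mem_U, hp.1, hp.2]

/-- subadditivity of the chromatic number -/
lemma rho_subadd {n K : ℕ} (hK : 1 ≤ K) (c : Fin n → Fin K) (x : Ed n → Bool) :
    rho x + 1 ≤ ∑ i, (rho (res (Sc c i) x) + 1) := by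
  choose f hf using fun i => rho_spec (res (Sc c i) x)
  have hcol : Col x (∑ i, (rho (res (Sc c i) x) + 1)) := by
    refine ⟨fun v => finSigmaFinEquiv (⟨c v, f (c v) v⟩ : (i : Fin K) × Fin (rho (res (Sc c i) x) + 1)),
      fun p hp he => ?_⟩
    have h1 := finSigmaFinEquiv.injective he
    have h2 : c p.1.1 = c p.1.2 := congrArg Sigma.fst h1
    have hp2 : p ∈ Sc c (c p.1.1) := by rw [mem_Sc]; exact ⟨rfl, h2.symm⟩
    have h3 : f (c p.1.1) p.1.1 = f (c p.1.1) p.1.2 := by
      have := h1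
      rw [Sigma.mk.inj_iff] at this
      obtain ⟨_, h4⟩ := this
      have h5 : ∀ j, j = c p.1.1 → HEq (f (c p.1.1) p.1.1) (f j p.1.2) →
          f (c p.1.1) p.1.1 = f (c p.1.1) p.1.2 := by
        rintro j rfl h; exact eq_of_heq h
      exact h5 _ h2.symm h4
    exact hf (c p.1.1) p (by simp only [res, hp2, if_true]; exact hp) h3
  have hpos : 1 ≤ ∑ i, (rho (res (Sc c i) x) + 1) := by
    have : ∑ i : Fin K, 1 ≤ ∑ i, (rho (res (Sc c i) x) + 1) :=
      Finset.sum_le_sum fun i _ => by omega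
    simp at this
    simp only [ge_iff_le] at *
    omega
  obtain ⟨r, hr⟩ : ∃ r, ∑ i, (rho (res (Sc c i) x) + 1) = r + 1 := ⟨_, (Nat.sub_add_cancel hpos).symm⟩
  rw [hr] at hcol ⊢
  have := rho_le hcol
  omega

/-- indicator of a family -/
noncomputable def ind {n : ℕ} (F : Finset (Ed n → Bool)) : (Ed n → Bool) → ℝ := fun x => if x ∈ F then 1 else 0

lemma ind_nonneg {n : ℕ} (F : Finset (Ed n → Bool)) (x) : 0 ≤ ind F x := by
  unfold ind; split_ifs <;> norm_num

lemma m_ind {n : ℕ} (F : Finset (Ed n → Bool)) :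
    m (ind F) = (F.card : ℝ) / (2:ℝ) ^ (Fintype.card (Ed n)) := by
  unfold m ind
  rw [Finset.sum_ite_mem, Finset.univ_inter, Finset.sum_const, nsmul_eq_mul, mul_one]

/-- shadow of a family on the monochromatic pairs of `c` -/
noncomputable def sh {n K : ℕ} (c : Fin n → Fin K) (F : Finset (Ed n → Bool)) : Finset (Ed n → Bool) := by
  classical
  exact univ.filter fun x => ∃ y ∈ F, ∀ p ∈ U c, x p = y p

lemma mem_sh {n K : ℕ} {c : Fin n → Fin K} {F : Finset (Ed n → Bool)} {x : Ed n → Bool} :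
    x ∈ sh c F ↔ ∃ y ∈ F, ∀ p ∈ U c, x p = y p := by
  classical
  simp [sh]

lemma dep_sh {n K : ℕ} (c : Fin n → Fin K) (F : Finset (Ed n → Bool)) : Dep (ind (sh c F)) (U c) := by
  intro x y hxy
  have : x ∈ sh c F ↔ y ∈ sh c F := by
    rw [mem_sh, mem_sh]
    constructor
    · rintro ⟨z, hz, h⟩; exact ⟨z, hz, fun p hp => by rw [← hxy p hp]; exact h p hp⟩
    · rintro ⟨z, hz, h⟩; exact ⟨z, hz, fun p hp => by rw [hxy p hp]; exact h p hp⟩
  unfold ind
  by_cases h : x ∈ sh c F
  · rw [if_pos h, if_pos (this.1 h)]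
  · rw [if_neg h, if_neg (fun h' => h (this.2 h'))]

lemma card_mono (n K : ℕ) (a b : Fin n) (hab : a ≠ b) :
    (univ.filter fun c : Fin n → Fin K => c a = c b).card = K ^ (n - 1) := by
  have h1 : (univ.filter fun c : Fin n → Fin K => c a = c b).card =
      (univ : Finset ({j : Fin n // j ≠ b} → Fin K)).card := by
    refine Finset.card_bij' (fun c _ => fun j => c j.1)
      (fun g _ => fun j => if h : j = b then g ⟨a, hab⟩ else g ⟨j, h⟩) ?_ ?_ ?_ ?_
    · intro c _
      exact Finset.mem_univ _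
    · intro g _
      rw [Finset.mem_filter]
      refine ⟨Finset.mem_univ _, ?_⟩
      simp [hab]
    · intro c hc
      rw [Finset.mem_filter] at hc
      funext j
      by_cases h : j = b
      · subst h; simp [hc.2]
      · simp [h]
    · intro g _
      funext j
      simp [j.2]
  rw [h1, Finset.card_univ, Fintype.card_fun, Fintype.card_fin]
  congr 1
  rw [Fintype.card_subtype_compl]
  simp

/-- Shearer for pairs of families -/
lemma shearer_pair {n K : ℕ} (hn : 1 ≤ n) (hK : 1 ≤ K) (F F' : Finset (Ed n → Bool)) (B : ℝ) (hB : 0 ≤ B)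
    (h : ∀ c : Fin n → Fin K, m (ind (sh c F)) * m (ind (sh c F')) ≤ B) :
    m (ind F) * m (ind F') ≤ B ^ K := by
  have hk : 1 ≤ K ^ (n - 1) := Nat.one_le_pow _ _ hK
  have hcount : ∀ p : Ed n, (univ.filter fun c : Fin n → Fin K => p ∈ U c).card = K ^ (n - 1) := by
    intro p
    rw [← card_mono n K p.1.1 p.1.2 (ne_of_lt p.2)]
    congr 1
    ext c
    simp [mem_U]
  have hle : ∀ G : Finset (Ed n → Bool),
      m (ind G) ≤ ∏ c : Fin n → Fin K, (m (ind (sh c G))) ^ (1 / ((K ^ (n - 1) : ℕ):ℝ)) := by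
    intro G
    refine le_trans (m_mono fun x => ?_)
      (finner (fun c : Fin n → Fin K => U c) (fun c => ind (sh c G)) (fun c x => ind_nonneg _ x)
        (fun c => dep_sh c G) (K ^ (n - 1)) hk hcount)
    by_cases hx : x ∈ G
    · have : ∀ c : Fin n → Fin K, ind (sh c G) x = 1 := by
        intro c
        unfold ind
        rw [if_pos (mem_sh.2 ⟨x, hx, fun _ _ => rfl⟩)]
      simp [ind, hx, mem_sh.2 ⟨x, hx, fun _ _ => rfl⟩]
    · have h0 : ind G x = 0 := by unfold ind; rw [if_neg hx]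
      rw [h0]
      exact Finset.prod_nonneg fun c _ => Real.rpow_nonneg (ind_nonneg _ _) _
  have h1 : m (ind F) * m (ind F') ≤ ∏ c : Fin n → Fin K, B ^ (1 / ((K ^ (n - 1) : ℕ):ℝ)) := by
    refine (mul_le_mul (hle F) (hle F') (m_nonneg (ind_nonneg _)) (Finset.prod_nonneg fun c _ =>
      Real.rpow_nonneg (m_nonneg (ind_nonneg _)) _)).trans ?_
    rw [← Finset.prod_mul_distrib]
    apply Finset.prod_le_prod
    · intro c _
      exact mul_nonneg (Real.rpow_nonneg (m_nonneg (ind_nonneg _)) _)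
        (Real.rpow_nonneg (m_nonneg (ind_nonneg _)) _)
    · intro c _
      rw [← Real.mul_rpow (m_nonneg (ind_nonneg _)) (m_nonneg (ind_nonneg _))]
      exact Real.rpow_le_rpow (mul_nonneg (m_nonneg (ind_nonneg _)) (m_nonneg (ind_nonneg _))) (h c)
        (by positivity)
  refine h1.trans (le_of_eq ?_)
  rw [Finset.prod_const, Finset.card_univ, Fintype.card_fun, Fintype.card_fin, Fintype.card_fin,
    ← Real.rpow_natCast, ← Real.rpow_mul hB, ← Real.rpow_natCast]
  congr 1
  have hn1 : n = (n - 1) + 1 := by omega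
  have hKr : ((K:ℝ) ^ (n - 1)) ≠ 0 := by positivity
  push_cast
  nth_rewrite 2 [hn1]
  rw [pow_succ]
  field_simp

/-- bound for cross families -/
lemma fb {n r : ℕ} (hn : 1 ≤ n) (F F' : Finset (Ed n → Bool))
    (h : ∀ x ∈ F, ∀ y ∈ F', r ≤ rho (inter x y)) : m (ind F) * m (ind F') ≤ (1/4) ^ r := by
  rcases Nat.eq_zero_or_pos r with rfl | hr
  · rw [pow_zero]
    have h1 : ∀ G : Finset (Ed n → Bool), m (ind G) ≤ 1 := by
      intro G
      calc m (ind G) ≤ m (fun _ => 1) := m_mono fun x => by unfold ind; split_ifs <;> norm_num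
        _ = 1 := m_const 1
    calc m (ind F) * m (ind F') ≤ 1 * 1 :=
          mul_le_mul (h1 F) (h1 F') (m_nonneg (ind_nonneg _)) zero_le_one
      _ = 1 := by norm_num
  · apply shearer_pair hn hr F F' (1/4) (by norm_num)
    intro c
    have hint : ∀ x ∈ sh c F, ∀ y ∈ sh c F', ∃ p, x p = true ∧ y p = true := by
      intro x hx y hy
      obtain ⟨x', hx', hxx⟩ := mem_sh.1 hx
      obtain ⟨y', hy', hyy⟩ := mem_sh.1 hy
      by_contra hcon
      push Not at hcon
      have h1 := h x' hx' y' hy'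
      have h2 := rho_subadd hr c (inter x' y')
      have h3 : ∀ i, rho (res (Sc c i) (inter x' y')) = 0 := by
        intro i
        apply Nat.le_zero.1
        apply rho_le
        refine ⟨fun _ => 0, fun p hp => ?_⟩
        exfalso
        simp only [res, inter] at hp
        split_ifs at hp with hpi
        have hpU := Sc_sub_U hpi
        rw [Bool.and_eq_true] at hp
        apply hcon p
        · rw [hxx p hpU]; exact hp.1
        · rw [hyy p hpU]; exact hp.2
      simp only [h3, zero_add, Finset.sum_const, Finset.card_univ, Fintype.card_fin, smul_eq_mul,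
        mul_one] at h2
      omega
    -- complement
    have hsum : m (ind (sh c F)) + m (ind (sh c F')) ≤ 1 := by
      rw [m_ind, m_ind, ← add_div, div_le_one (by positivity)]
      let e : (Ed n → Bool) → (Ed n → Bool) := fun x p => !(x p)
      have he : Function.Injective e := by
        intro x y hxy
        funext p
        have := congrFun hxy p
        simp only [e] at this
        exact Bool.not_inj this
      have hdisj : Disjoint ((sh c F).image e) (sh c F') := by
        rw [Finset.disjoint_left]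
        intro y hy hy'
        obtain ⟨x, hx, rfl⟩ := Finset.mem_image.1 hy
        obtain ⟨p, hp1, hp2⟩ := hint x hx _ hy'
        simp only [e, hp1, Bool.not_true] at hp2
        exact Bool.false_ne_true hp2
      have hc := Finset.card_union_of_disjoint hdisj
      rw [Finset.card_image_of_injective _ he] at hc
      have hle := Finset.card_le_univ ((sh c F).image e ∪ sh c F')
      rw [hc, Fintype.card_fun, Fintype.card_bool] at hle
      exact_mod_cast hle
    have ha := m_nonneg (ind_nonneg (sh c F))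
    have hb := m_nonneg (ind_nonneg (sh c F'))
    nlinarith [sq_nonneg (m (ind (sh c F)) - m (ind (sh c F')))]

end graph

section base

/-- the base property on `n` vertices -/
def BaseC (n : ℕ) (θ C : ℝ) : Prop :=
  ∀ (g g' : (Ed n → Bool) → ℝ) (D : ℝ), (∀ x, 0 ≤ g x) → (∀ x, 0 ≤ g' x) → 0 ≤ D →
    (∀ x y, g x * g' y ≤ D * θ ^ (rho (inter x y))) → m g * m g' ≤ C * D

/-- tensorisation over the colour classes -/
lemma tensor {n K : ℕ} {θ C : ℝ} (hθ : 1 ≤ θ) (hC : 0 ≤ C) (hb : BaseC n θ C) (c : Fin n → Fin K)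
    (g g' : (Ed n → Bool) → ℝ) (D : ℝ) (hg : ∀ x, 0 ≤ g x) (hg' : ∀ x, 0 ≤ g' x) (hD : 0 ≤ D)
    (h : ∀ x y, g x * g' y ≤ D * θ ^ (∑ i, rho (res (Sc c i) (inter x y)))) :
    m g * m g' ≤ C ^ K * D := by
  have key : ∀ I : Finset (Fin K), ∀ x y, A (I.biUnion (Sc c)) g x * A (I.biUnion (Sc c)) g' y ≤
      C ^ I.card * D * θ ^ (∑ i ∈ univ \ I, rho (res (Sc c i) (inter x y))) := by
    intro I
    induction I using Finset.induction_on with
    | empty =>
      intro x y
      rw [Finset.biUnion_empty, A_empty, A_empty, Finset.card_empty, pow_zero, one_mul,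
        Finset.sdiff_empty]
      exact h x y
    | insert i I hi ih =>
      intro x y
      rw [Finset.biUnion_insert, ← A_A, ← A_A, Finset.card_insert_of_notMem hi]
      have hD' : 0 ≤ C ^ I.card * D * θ ^ (∑ j ∈ univ \ insert i I, rho (res (Sc c j) (inter x y))) := by
        positivity
      have := hb (fun z => A (I.biUnion (Sc c)) g (pw (Sc c i) z x))
        (fun z => A (I.biUnion (Sc c)) g' (pw (Sc c i) z y)) _
        (fun z => A_nonneg hg _) (fun z => A_nonneg hg' _) hD' ?_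
      · calc A (Sc c i) (A (I.biUnion (Sc c)) g) x * A (Sc c i) (A (I.biUnion (Sc c)) g') y
            ≤ C * (C ^ I.card * D * θ ^ (∑ j ∈ univ \ insert i I, rho (res (Sc c j) (inter x y)))) := this
          _ = _ := by rw [pow_succ]; ring
      · intro z z'
        refine (ih _ _).trans ?_
        have hi2 : i ∈ univ \ I := by simp [hi]
        rw [← Finset.sum_erase_add _ _ hi2]
        have hset : (univ \ I).erase i = univ \ insert i I := by
          ext j; simp only [Finset.mem_erase, Finset.mem_sdiff, Finset.mem_univ, true_and,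
            Finset.mem_insert, not_or]
        rw [hset, pow_add, mul_assoc (C ^ I.card * D)]
        have h1 : ∑ j ∈ univ \ insert i I, rho (res (Sc c j) (inter (pw (Sc c i) z x) (pw (Sc c i) z' y))) =
            ∑ j ∈ univ \ insert i I, rho (res (Sc c j) (inter x y)) := by
          apply Finset.sum_congr rfl
          intro j hj
          have hji : j ≠ i := by
            rintro rfl; simp at hj
          congr 1
          funext p
          simp only [res]
          split_ifs with hp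
          · have hpi : p ∉ Sc c i := by
              rw [mem_Sc] at hp ⊢
              rintro ⟨h1, _⟩
              exact hji (hp.1.symm.trans h1)
            simp [inter, pw, hpi]
          · rfl
        rw [h1]
        apply mul_le_mul_of_nonneg_left _ (by positivity)
        apply mul_le_mul_of_nonneg_left _ (by positivity)
        apply pow_le_pow_right₀ hθ
        apply rho_mono
        intro p hp
        simp only [res] at hp
        split_ifs at hp with hpi
        simpa [inter, pw, hpi] using hp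
  have h2 := m_mul_m_le (h := A (univ.biUnion (Sc c)) g) (h' := A (univ.biUnion (Sc c)) g')
    (C := C ^ K * D) (fun x y => by
      have := key univ x y
      rw [Finset.card_univ, Fintype.card_fin, Finset.sdiff_self, Finset.sum_empty, pow_zero,
        mul_one] at this
      exact this)
  rw [m_A, m_A] at h2
  exact h2

/-- the base inequality -/
lemma base (n : ℕ) (hn : 1 ≤ n) : BaseC n ((4:ℝ) ^ (3/4 : ℝ)) 16 := by
  intro g g' D hg hg' hD h
  classical
  set N : ℝ := (2:ℝ) ^ (Fintype.card (Ed n)) with hN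
  have hN0 : 0 < N := by positivity
  have hcardu : ((univ : Finset (Ed n → Bool)).card : ℝ) = N := by
    rw [Finset.card_univ, Fintype.card_fun, Fintype.card_bool]; push_cast; rfl
  let φ : ((Ed n → Bool) → ℝ) → (Ed n → Bool) → ℝ := fun g x =>
    g x * (((univ : Finset (Ed n → Bool)).filter fun y => g x ≤ g y).card : ℝ) ^ (3/4 : ℝ)
  have hφ0 : ∀ g : (Ed n → Bool) → ℝ, (∀ x, 0 ≤ g x) → ∀ x, 0 ≤ φ g x := fun g hg x =>
    mul_nonneg (hg x) (Real.rpow_nonneg (Nat.cast_nonneg _) _)
  obtain ⟨x0, -, hx0⟩ := Finset.exists_max_image (univ : Finset (Ed n → Bool)) (φ g) ⟨fun _ => true, mem_univ _⟩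
  obtain ⟨y0, -, hy0⟩ := Finset.exists_max_image (univ : Finset (Ed n → Bool)) (φ g') ⟨fun _ => true, mem_univ _⟩
  have hs : ∑ x, g x ≤ 4 * φ g x0 * N ^ (1/4 : ℝ) := by
    rw [← hcardu]
    exact weak_sum univ g (fun x _ => hg x) _ (hφ0 g hg x0) (fun x hx => hx0 x hx)
  have hs' : ∑ x, g' x ≤ 4 * φ g' y0 * N ^ (1/4 : ℝ) := by
    rw [← hcardu]
    exact weak_sum univ g' (fun x _ => hg' x) _ (hφ0 g' hg' y0) (fun x hx => hy0 x hx)
  set F : Finset (Ed n → Bool) := univ.filter fun y => g x0 ≤ g y with hF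
  set F' : Finset (Ed n → Bool) := univ.filter fun y => g' y0 ≤ g' y with hF'
  have hx0F : x0 ∈ F := by simp [hF]
  have hy0F : y0 ∈ F' := by simp [hF']
  -- minimal rho
  obtain ⟨⟨x1, y1⟩, hxy1, hmin⟩ := Finset.exists_min_image (F ×ˢ F')
    (fun q : (Ed n → Bool) × (Ed n → Bool) => rho (inter q.1 q.2)) ⟨(x0, y0), Finset.mem_product.2 ⟨hx0F, hy0F⟩⟩
  rw [Finset.mem_product] at hxy1
  set r := rho (inter x1 y1) with hr
  have hfb := fb (r := r) hn F F' (fun x hx y hy => hmin (x, y) (Finset.mem_product.2 ⟨hx, hy⟩))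
  rw [m_ind, m_ind] at hfb
  have hprod : g x0 * g' y0 ≤ D * ((4:ℝ) ^ (3/4 : ℝ)) ^ r := by
    refine le_trans (mul_le_mul ?_ ?_ (hg' y0) (hg x1)) (h x1 y1)
    · exact (Finset.mem_filter.1 hxy1.1).2
    · exact (Finset.mem_filter.1 hxy1.2).2
  have hMM : φ g x0 * φ g' y0 ≤ D * N ^ (3/2 : ℝ) := by
    have e1 : φ g x0 * φ g' y0 = (g x0 * g' y0) * ((F.card : ℝ) * (F'.card : ℝ)) ^ (3/4 : ℝ) := by
      simp only [φ]
      rw [Real.mul_rpow (Nat.cast_nonneg _) (Nat.cast_nonneg _)]
      ring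
    rw [e1]
    have e2 : (F.card : ℝ) * (F'.card : ℝ) ≤ (1/4) ^ r * N ^ 2 := by
      have : (F.card : ℝ) / N * ((F'.card : ℝ) / N) = (F.card : ℝ) * (F'.card : ℝ) / N ^ 2 := by
        field_simp
      rw [this, div_le_iff₀ (by positivity)] at hfb
      exact hfb
    have e3 : ((F.card : ℝ) * (F'.card : ℝ)) ^ (3/4 : ℝ) ≤ ((1/4) ^ r * N ^ 2) ^ (3/4 : ℝ) :=
      Real.rpow_le_rpow (by positivity) e2 (by norm_num)
    have e4 : ((1/4 : ℝ) ^ r * N ^ 2) ^ (3/4 : ℝ) = (((4:ℝ) ^ (3/4 : ℝ)) ^ r)⁻¹ * N ^ (3/2 : ℝ) := by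
      rw [Real.mul_rpow (by positivity) (by positivity)]
      congr 1
      · rw [one_div, inv_pow, Real.inv_rpow (by positivity), ← Real.rpow_natCast, ← Real.rpow_natCast,
          ← Real.rpow_mul (by norm_num), ← Real.rpow_mul (by norm_num), mul_comm]
      · rw [← Real.rpow_natCast, ← Real.rpow_mul hN0.le]
        norm_num
    rw [e4] at e3
    have e5 : 0 < ((4:ℝ) ^ (3/4 : ℝ)) ^ r := by positivity
    calc (g x0 * g' y0) * ((F.card : ℝ) * (F'.card : ℝ)) ^ (3/4 : ℝ)
        ≤ (D * ((4:ℝ) ^ (3/4 : ℝ)) ^ r) * ((((4:ℝ) ^ (3/4 : ℝ)) ^ r)⁻¹ * N ^ (3/2 : ℝ)) :=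
          mul_le_mul hprod e3 (by positivity) (by positivity)
      _ = D * N ^ (3/2 : ℝ) := by field_simp
  have hφx := hφ0 g hg x0
  have hφy := hφ0 g' hg' y0
  have hfin : (∑ x, g x) * (∑ x, g' x) ≤ 16 * D * N ^ 2 := by
    have e6 : N ^ (3/2 : ℝ) * (N ^ (1/4 : ℝ) * N ^ (1/4 : ℝ)) = N ^ 2 := by
      rw [← Real.rpow_add hN0, ← Real.rpow_add hN0, ← Real.rpow_natCast]
      norm_num
    calc (∑ x, g x) * (∑ x, g' x)
        ≤ (4 * φ g x0 * N ^ (1/4 : ℝ)) * (4 * φ g' y0 * N ^ (1/4 : ℝ)) :=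
          mul_le_mul hs hs' (Finset.sum_nonneg fun x _ => hg' x) (by positivity)
      _ = 16 * (φ g x0 * φ g' y0) * (N ^ (1/4 : ℝ) * N ^ (1/4 : ℝ)) := by ring
      _ ≤ 16 * (D * N ^ (3/2 : ℝ)) * (N ^ (1/4 : ℝ) * N ^ (1/4 : ℝ)) := by
          apply mul_le_mul_of_nonneg_right _ (by positivity)
          apply mul_le_mul_of_nonneg_left hMM (by norm_num)
      _ = 16 * D * (N ^ (3/2 : ℝ) * (N ^ (1/4 : ℝ) * N ^ (1/4 : ℝ))) := by ring
      _ = 16 * D * N ^ 2 := by rw [e6]
  unfold m
  rw [← hN]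
  have : (∑ x, g x) / N * ((∑ x, g' x) / N) = (∑ x, g x) * (∑ x, g' x) / N ^ 2 := by
    field_simp
  rw [this, div_le_iff₀ (by positivity)]
  exact hfin

/-- main bound: cross families with `t-1 ≤ rho` -/
lemma main {n K s : ℕ} (hn : 1 ≤ n) (hK : 1 ≤ K) (F F' : Finset (Ed n → Bool))
    (h : ∀ x ∈ F, ∀ y ∈ F', s ≤ rho (inter x y)) :
    m (ind F) * m (ind F') ≤
      ((16:ℝ) ^ K * (((4:ℝ) ^ (3/4 : ℝ)) ^ K * (((4:ℝ) ^ (3/4 : ℝ)) ^ (s + 1))⁻¹)) ^ K := by
  have hθ : 1 ≤ (4:ℝ) ^ (3/4 : ℝ) := Real.one_le_rpow (by norm_num) (by norm_num)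
  set θ := (4:ℝ) ^ (3/4 : ℝ) with hθd
  have hθ0 : 0 < θ := by linarith
  apply shearer_pair hn hK F F' _ (by positivity)
  intro c
  apply tensor hθ (by norm_num) (base n hn) c _ _ _ (ind_nonneg _) (ind_nonneg _) (by positivity)
  intro x y
  by_cases hx : x ∈ sh c F
  · by_cases hy : y ∈ sh c F'
    · obtain ⟨x', hx', hxx⟩ := mem_sh.1 hx
      obtain ⟨y', hy', hyy⟩ := mem_sh.1 hy
      have h1 := h x' hx' y' hy'
      have h2 := rho_subadd hK c (inter x' y')
      have h3 : ∀ i, res (Sc c i) (inter x' y') = res (Sc c i) (inter x y) := by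
        intro i
        funext p
        simp only [res]
        split_ifs with hpi
        · have hpU := Sc_sub_U hpi
          simp only [inter]
          rw [hxx p hpU, hyy p hpU]
        · rfl
      simp only [h3, Finset.sum_add_distrib, Finset.sum_const, Finset.card_univ, Fintype.card_fin,
        smul_eq_mul, mul_one] at h2
      have h4 : s + 1 ≤ K + ∑ i, rho (res (Sc c i) (inter x y)) := by omega
      have h5 : θ ^ (s + 1) ≤ θ ^ K * θ ^ (∑ i, rho (res (Sc c i) (inter x y))) := by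
        rw [← pow_add]; exact pow_le_pow_right₀ hθ h4
      have e1 : ind (sh c F) x = 1 := by unfold ind; rw [if_pos hx]
      have e2 : ind (sh c F') y = 1 := by unfold ind; rw [if_pos hy]
      rw [e1, e2, mul_one]
      have h6 : 0 < θ ^ (s + 1) := by positivity
      rw [mul_assoc, mul_comm (θ ^ (s + 1))⁻¹, ← mul_assoc, ← div_eq_mul_inv, le_div_iff₀ h6, one_mul]
      exact h5
    · have e2 : ind (sh c F') y = 0 := by unfold ind; rw [if_neg hy]
      rw [e2, mul_zero]; positivity
  · have e1 : ind (sh c F) x = 0 := by unfold ind; rw [if_neg hx]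
    rw [e1, zero_mul]; positivity

end base

end Chr827
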